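import Mathlib
import Pool.Agent.Helper34.LF.St

set_option autoImplicit false

/-!
# Project LF, module ER1: all erasures of a member are good or special
-/

namespace Pool.Agent.Helper51.LF

open Finset Pool.Agent.Helper34.LF

theorem zne (u v : ZMod 2) (h : u ≠ v) : u + v = 1 := by
  revert h; revert u v; decide

theorem par_pair {N : ℕ} (a c : VA N) (b b' : VB N) (hac : a ≠ c) (hbb : b ≠ b')
    (h : (b.1 + b'.1) a.1 ≠ (b.1 + b'.1) c.1) : par {a, c} {b, b'} = 1 := by
  unfold par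
  rw [sum_pair hac, sum_pair hbb, sum_pair hbb]
  exact zne _ _ h

theorem erase1 {V : Type} [DecidableEq V] (a a' c : V) (h1 : a ≠ a') (h2 : a ≠ c) :
    ({a, a', c} : Finset V).erase a = {a', c} := by
  ext x
  simp only [mem_erase, mem_insert, mem_singleton]
  constructor
  · rintro ⟨hx, h | h | h⟩
    · exact absurd h hx
    · exact Or.inl h
    · exact Or.inr h
  · rintro (h | h)
    · exact ⟨fun h' => h1 (h'.symm.trans h), Or.inr (Or.inl h)⟩
    · exact ⟨fun h' => h2 (h'.symm.trans h), Or.inr (Or.inr h)⟩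

theorem erase2 {V : Type} [DecidableEq V] (a a' c : V) (h1 : a ≠ a') (h3 : a' ≠ c) :
    ({a, a', c} : Finset V).erase a' = {a, c} := by
  rw [insert_comm]
  exact erase1 a' a c h1.symm h3

theorem erase3 {V : Type} [DecidableEq V] (a a' c : V) (h2 : a ≠ c) (h3 : a' ≠ c) :
    ({a, a', c} : Finset V).erase c = {a, a'} := by
  have : ({a, a', c} : Finset V) = {c, a, a'} := by
    ext x
    simp only [mem_insert, mem_singleton]
    tauto
  rw [this]
  exact erase1 c a a' h2.symm h3.symm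

theorem pER1 : StER1 := by
  intro N _ X Y h
  rcases h with ⟨hX, hY⟩ | ⟨hX, hY⟩ | ⟨a, a', c, b, b', h1, h2, h3, hb, rfl, rfl, hS, hw⟩
  · refine ⟨fun a ha => Or.inl (Or.inl ⟨?_, hY⟩), fun b hb => Or.inr (Or.inl ⟨hX, ?_⟩)⟩
    · rw [card_erase_of_mem ha, hX.1]
    · rw [← card_eq_zero, card_erase_of_mem hb, hY]
  · refine ⟨fun a ha => Or.inr (Or.inr (Or.inl ⟨?_, hY⟩)), fun b hb =>
      Or.inl (Or.inr (Or.inl ⟨hX, ?_⟩))⟩
    · rw [← card_eq_zero, card_erase_of_mem ha, hX]
    · rw [card_erase_of_mem hb, hY.1]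
  · have hY : ({b, b'} : Finset (VB N)).card = 2 := card_pair hb
    have hX : ({a, a', c} : Finset (VA N)).card = 3 := by
      rw [card_insert_of_notMem, card_pair h3]
      simp [h1, h2]
    refine ⟨fun x hx => ?_, fun y hy => Or.inl (Or.inl ⟨hX, ?_⟩)⟩
    · simp only [mem_insert, mem_singleton] at hx
      rcases hx with rfl | rfl | rfl
      · rw [erase1 x a' c h1 h2]
        refine Or.inl (Or.inr (Or.inr ⟨card_pair h3, hY, par_pair a' c b b' h3 hb ?_⟩))
        rw [← hS.1]; exact hw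
      · rw [erase2 a x c h1 h3]
        exact Or.inl (Or.inr (Or.inr ⟨card_pair h2, hY, par_pair a c b b' h2 hb hw⟩))
      · rw [erase3 a a' x h2 h3]
        exact Or.inr (Or.inr (Or.inr ⟨a, a', b, b', h1, hb, rfl, rfl, hS⟩))
    · rw [card_erase_of_mem hy, hY]

end Pool.Agent.Helper51.LF
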